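import Pool.Agent.H76.HB.Stmt

/-! Row AT: existence of atomic submodels. -/

set_option autoImplicit false

open Set Pool.Agent.TK Pool.Agent.ST

namespace Pool.Agent.HB

variable {C : Type}

lemma at_sucN_le {i j : ℕ} (h : i ≤ j) (r : Rk) : RLe C (Rk.sucN i r) (Rk.sucN j r) := by
  obtain ⟨k, rfl⟩ := Nat.exists_eq_add_of_le h
  rw [Nat.add_comm, ← sucN_add]
  exact RLe.sucN k _

lemma at_tail {ρ : Rk} {M N : St C} {u v : ℕ} {x y : List ℕ} (h : EB ρ M (u :: x) N (v :: y)) :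
    EB ρ M x N y :=
  ⟨by simpa using h.1, bf_mono h.2 (fun z hz => by
    rw [List.zip_cons_cons]; exact List.mem_cons_of_mem _ hz)⟩

/-- one step -/
lemma at_step (hDEN : DEN C) {X : Set (St C)} {b r : Rk} (hcl : Cl b X) (htc : TC X)
    (hbr : RLe C b r) {M : St C} (hM : M ∈ X) {s x : List ℕ} (hnd : (x ++ s).Nodup)
    (hI : Isl X r M s x) {y : ℕ} (hy : y ∉ x ++ s) (n : ℕ) :
    ∃ y', (y' :: x ++ s).Nodup ∧ Isl X r M s (y' :: x) ∧
      EB (Rk.sucN n r) M (y :: (x ++ s)) M (y' :: (x ++ s)) := by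
  obtain ⟨m, hm⟩ := hI
  have hnd' : ((y :: x) ++ s).Nodup := by
    rw [List.cons_append, List.nodup_cons]
    exact ⟨hy, hnd⟩
  obtain ⟨N, hN, s', z, h1, h2, m', h3⟩ := hDEN X b r hcl htc hbr M hM s (y :: x) hnd' (max n m)
  have hlen : z.length = x.length + 1 := by
    have e1 := h2.1
    have e2 := h1.1
    simp only [List.length_append, List.length_cons] at e1
    omega
  obtain ⟨y1, x', rfl⟩ : ∃ y1 x', z = y1 :: x' := by
    cases z with
    | nil => simp at hlen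
    | cons y1 x' => exact ⟨y1, x', rfl⟩
  have h4 : EB (Rk.sucN m r) M (x ++ s) N (x' ++ s') :=
    at_tail (FB.mono (at_sucN_le (le_max_right n m) r) h2)
  have h5 : EB (Rk.lim r) M (x ++ s) N (x' ++ s') := hm N hN s' x' h1 h4
  obtain ⟨w, hw, -, h6⟩ := lim_ext_suc' h5.2 (max m' n) [y1] (by simp)
  obtain ⟨y2, rfl⟩ : ∃ y2, w = [y2] := List.length_eq_one_iff.1 (by simpa using hw)
  have h7 : EB (Rk.sucN (max m' n) r) M ((y2 :: x) ++ s) N ((y1 :: x') ++ s') :=
    ⟨by simpa using h5.1, h6⟩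
  have h8 : EB (Rk.lim r) N ((y1 :: x') ++ s') M ((y2 :: x) ++ s) :=
    h3 M hM s (y2 :: x) (FB.symm h1)
      (FB.mono (at_sucN_le (le_max_left m' n) r) (FB.symm h7))
  have h9 : EB (Rk.sucN n r) M (y :: (x ++ s)) M (y2 :: (x ++ s)) :=
    FB.trans (FB.mono (at_sucN_le (le_max_left n m) r) h2)
      (FB.mono (at_sucN_le (le_max_right m' n) r) (FB.symm h7))
  refine ⟨y2, ?_, ⟨m', ?_⟩, h9⟩
  · rw [List.cons_append, List.nodup_cons]
    refine ⟨fun hy2 => hy ?_, hnd⟩
    have hP := bf_PI h9.2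
    have e1 := hP.1 (y, y2) (by simp) (y2, y2) (by
      rw [List.zip_cons_cons]
      refine List.mem_cons_of_mem _ ?_
      rw [← dg_eq_zip, mem_dg]
      exact ⟨rfl, hy2⟩)
    have e2 : y = y2 := e1.2 rfl
    rw [e2]
    exact hy2
  · intro N2 hN2 s2 y3 k1 k2
    have k3 : EB (Rk.lim r) N ((y1 :: x') ++ s') N2 (y3 ++ s2) :=
      h3 N2 hN2 s2 y3 (FB.trans (FB.symm h1) k1)
        (FB.trans (FB.mono (RLe.lim' m' r) h8) k2)
    exact FB.trans (FB.symm h8) k3

theorem pf_AT {C : Type} (hDEN : DEN C) : AT C := by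
  classical
  intro X b r hcl htc hbr M hM s hs
  have step : ∀ (i : ℕ) (t : {x : List ℕ // (x ++ s).Nodup ∧ Isl X r M s x}),
      ∃ t' : {x : List ℕ // (x ++ s).Nodup ∧ Isl X r M s x}, (∀ z ∈ t.1, z ∈ t'.1) ∧
        ∃ y' ∈ t'.1 ++ s, EB (Rk.sucN (Nat.unpair (Nat.unpair i).2).2 r) M
          ((Nat.unpair (Nat.unpair i).2).1 :: (t.1 ++ s)) M (y' :: (t.1 ++ s)) := by
    intro i t
    by_cases hy : (Nat.unpair (Nat.unpair i).2).1 ∈ t.1 ++ s
    · exact ⟨t, fun z hz => hz, _, hy, FB.refl _ _ _ _⟩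
    · obtain ⟨y', k1, k2, k3⟩ := at_step hDEN hcl htc hbr hM t.2.1 t.2.2 hy
        (Nat.unpair (Nat.unpair i).2).2
      exact ⟨⟨y' :: t.1, k1, k2⟩, fun z hz => List.mem_cons_of_mem _ hz, y', by simp, k3⟩
  choose f hf1 hf2 using step
  let t0 : {x : List ℕ // (x ++ s).Nodup ∧ Isl X r M s x} :=
    ⟨[], by simpa using hs, 0, fun N _ s' y k1 k2 => by
      have e1 : y = [] := by
        have e2 := k2.1
        have e3 := k1.1
        simp only [List.nil_append, List.length_append] at e2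
        exact List.length_eq_zero_iff.1 (by omega)
      rw [e1]
      exact k1⟩
  let a : ℕ → {x : List ℕ // (x ++ s).Nodup ∧ Isl X r M s x} :=
    fun j => Nat.rec t0 (fun i t => f i t) j
  have ha : ∀ j, a (j + 1) = f j (a j) := fun j => rfl
  have hmono1 : ∀ j, ∀ z ∈ (a j).1, z ∈ (a (j + 1)).1 := by
    intro j z hz
    rw [ha]
    exact hf1 j (a j) z hz
  have hmono : ∀ i j, i ≤ j → ∀ z ∈ (a i).1, z ∈ (a j).1 := by
    intro i j hij
    induction hij with
    | refl => exact fun z hz => hz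
    | step _ ih => exact fun z hz => hmono1 _ z (ih z hz)
  refine ⟨fun j => (a j).1, {z | ∃ j, z ∈ (a j).1 ++ s}, fun z => Iff.rfl, hmono1,
    fun j => (a j).2.2, ?_⟩
  intro x hx y n
  have hfin : ∃ i, ∀ z ∈ x, z ∈ (a i).1 ++ s := by
    induction x with
    | nil => exact ⟨0, by simp⟩
    | cons u x ih =>
      obtain ⟨i, hi⟩ := ih (fun z hz => hx z (List.mem_cons_of_mem _ hz))
      obtain ⟨j, hj⟩ := hx u List.mem_cons_self
      refine ⟨max i j, ?_⟩
      intro z hz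
      rw [List.mem_append]
      rcases List.mem_cons.1 hz with rfl | hz
      · rcases List.mem_append.1 hj with h | h
        · exact Or.inl (hmono j _ (le_max_right i j) _ h)
        · exact Or.inr h
      · rcases List.mem_append.1 (hi z hz) with h | h
        · exact Or.inl (hmono i _ (le_max_left i j) _ h)
        · exact Or.inr h
  obtain ⟨i, hi⟩ := hfin
  obtain ⟨y', k1, k2⟩ := hf2 (Nat.pair i (Nat.pair y n)) (a (Nat.pair i (Nat.pair y n)))
  rw [Nat.unpair_pair, Nat.unpair_pair] at k2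
  refine ⟨y', ⟨Nat.pair i (Nat.pair y n) + 1, k1⟩, ⟨by simp, ?_⟩⟩
  refine bf_mono k2.2 ?_
  intro z hz
  rw [List.zip_cons_cons] at hz ⊢
  rcases List.mem_cons.1 hz with rfl | hz
  · exact List.mem_cons_self
  · refine List.mem_cons_of_mem _ ?_
    rw [← dg_eq_zip, mem_dg] at hz ⊢
    refine ⟨hz.1, ?_⟩
    rw [List.mem_append]
    rcases List.mem_append.1 (hi _ hz.2) with h | h
    · exact Or.inl (hmono i _ (Nat.left_le_pair i _) _ h)
    · exact Or.inr h

end Pool.Agent.HB
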