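import Pool.Agent.H76.HB.Stmt

/-! Row HUBS: the hub system. -/

set_option autoImplicit false

open Set Pool.Agent.TK Pool.Agent.ST

namespace Pool.Agent.HB

variable {C : Type}

/-- a walk inside a component, as a function -/
lemma hubs_walk {M : St C} {A : Set ℕ} {y v : ℕ} (h : Conn M A y v) :
    ∃ (u : ℕ → ℕ) (k : ℕ), u 0 = y ∧ u k = v ∧ (∀ t, t ≤ k → u t ∉ A) ∧
      ∀ t, t < k → M.1 (u t) (u (t + 1)) = true := by
  obtain ⟨h1, h2⟩ := h
  induction h2 with
  | refl => exact ⟨fun _ => y, 0, rfl, rfl, fun _ _ => h1, fun t ht => absurd ht (by omega)⟩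
  | @tail v w _ hvw ih =>
    obtain ⟨u, k, e1, e2, e3, e4⟩ := ih
    refine ⟨fun t => if t ≤ k then u t else w, k + 1, ?_, ?_, ?_, ?_⟩
    · simp [e1]
    · simp
    · intro t ht
      by_cases htk : t ≤ k
      · simp only [htk, if_true]
        exact e3 t htk
      · simp only [htk, if_false]
        exact hvw.2
    · intro t ht
      rcases Nat.lt_or_ge t k with h | h
      · simp only [show t ≤ k by omega, show t + 1 ≤ k by omega, if_true]
        exact e4 t h
      · have htk : t = k := by omega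
        subst htk
        simp only [le_refl, if_true, show ¬ t + 1 ≤ t by omega, if_false]
        rw [e2]
        exact hvw.1

theorem pf_HUBS {C : Type} {c0 : C} (hTVM : TVM C) : HUBS C c0 := by
  classical
  intro X r M s a A hV hA y hy hinf
  -- the hubs
  let β0 : ℕ ↪ Nb M (cp M A y) := hinf.natEmbedding
  have hβ : ∀ i, (β0 i : ℕ) ∈ Nb M (cp M A y) := fun i => (β0 i).2
  have hinj : Function.Injective (fun i => (β0 i : ℕ)) := by
    intro i j hij
    exact β0.injective (Subtype.ext hij)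
  generalize hβe : (fun i => (β0 i : ℕ)) = β at hinj
  have hβ1 : ∀ i, β i ∈ Nb M (cp M A y) := by
    intro i
    rw [← hβe]
    exact hβ i
  have hβA : ∀ i, β i ∈ A := by
    intro i
    by_contra hcon
    obtain ⟨h1, v, h2, h3⟩ := hβ1 i
    refine h1 ?_
    exact Conn.step h2 (by rw [hV.1]; exact h3) hcon
  -- the walks
  have hwalk : ∀ i, ∃ (u : ℕ → ℕ) (k : ℕ), u 0 = y ∧ u k = β i ∧ (∀ t, t < k → u t ∉ A) ∧
      ∀ t, t < k → M.1 (u t) (u (t + 1)) = true := by
    intro i
    obtain ⟨h1, v, h2, h3⟩ := hβ1 i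
    obtain ⟨u, k, e1, e2, e3, e4⟩ := hubs_walk h2
    refine ⟨fun t => if t ≤ k then u t else β i, k + 1, ?_, ?_, ?_, ?_⟩
    · simp [e1]
    · simp
    · intro t ht
      simp only [show t ≤ k by omega, if_true]
      exact e3 t (by omega)
    · intro t ht
      rcases Nat.lt_or_ge t k with h | h
      · simp only [show t ≤ k by omega, show t + 1 ≤ k by omega, if_true]
        exact e4 t h
      · have htk : t = k := by omega
        subst htk
        simp only [le_refl, if_true, show ¬ t + 1 ≤ t by omega, if_false]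
        rw [e2, hV.1]
        exact h3
  choose u k hu0 huk huA huE using hwalk
  refine ⟨β, k, ⟨hinj, ?_⟩, hβ1⟩
  intro n F hF
  obtain ⟨l, hl, -, -⟩ := exists_list (hF.inter_of_left A)
  let x : List ℕ := l ++ (List.range (n + 1)).map β
  let t : List ℕ := y :: (List.range (n + 1)).flatMap (fun i => (List.range (k i)).map (u i))
  have hlm : ∀ z, z ∈ l ↔ z ∈ F ∧ z ∈ A := by
    intro z
    have : z ∈ ms l ↔ z ∈ F ∩ A := by rw [hl]
    exact this
  have hxA : ∀ z ∈ x, z ∈ A := by
    intro z hz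
    rcases List.mem_append.1 hz with h | h
    · exact ((hlm z).1 h).2
    · obtain ⟨i, -, rfl⟩ := List.mem_map.1 h
      exact hβA i
  obtain ⟨t', ht1, ht2, ht3⟩ := hTVM X r M s a A hA x hxA t 0
  have hP := bf_PI ht3.2
  have hlen : (t ++ x).length = (t' ++ x).length := ht3.1
  have hg : ∀ z, ∃ z', z ∈ t ++ x → (z, z') ∈ (t ++ x).zip (t' ++ x) := by
    intro z
    by_cases hz : z ∈ t ++ x
    · obtain ⟨i, hi, rfl⟩ := List.getElem_of_mem hz
      refine ⟨(t' ++ x)[i]'(by omega), fun _ => ?_⟩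
      rw [List.mem_iff_getElem]
      refine ⟨i, by rw [List.length_zip]; omega, ?_⟩
      rw [List.getElem_zip]
    · exact ⟨0, fun h => absurd h hz⟩
  choose g hg using hg
  have hdx : ∀ z ∈ x, (z, z) ∈ (t ++ x).zip (t' ++ x) := by
    intro z hz
    rw [List.zip_append ht1.symm, List.mem_append]
    refine Or.inr ?_
    rw [← dg_eq_zip, mem_dg]
    exact ⟨rfl, hz⟩
  have hgx : ∀ z ∈ x, g z = z := by
    intro z hz
    have h1 := hg z (List.mem_append_right _ hz)
    have h2 := hdx z hz
    exact ((hP.1 _ h1 _ h2).1 rfl)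
  have hgA : ∀ z ∈ t ++ x, g z ∈ A := by
    intro z hz
    have h1 := List.of_mem_zip (hg z hz)
    rcases List.mem_append.1 h1.2 with h | h
    · exact ht2 _ h
    · exact hxA _ h
  have hgF : ∀ z ∈ t ++ x, z ∉ A → g z ∉ F := by
    intro z hz hzA hF'
    have h1 := hgA z hz
    have h2 : g z ∈ x := List.mem_append_left _ ((hlm _).2 ⟨hF', h1⟩)
    have h3 := hdx _ h2
    have h4 := (hP.1 _ (hg z hz) _ h3).2 rfl
    have h5 : z = g z := h4
    rw [h5] at hzA
    exact hzA h1
  have hyt : y ∈ t ++ x := by simp [t]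
  refine ⟨g y, hgF y hyt hy, ?_⟩
  intro i hi
  have hut : ∀ j, j < k i → u i j ∈ t ++ x := by
    intro j hj
    refine List.mem_append_left _ (List.mem_cons_of_mem _ ?_)
    rw [List.mem_flatMap]
    exact ⟨i, by simp; omega, List.mem_map.2 ⟨j, by simp; omega, rfl⟩⟩
  have hβx : β i ∈ x := by
    refine List.mem_append_right _ (List.mem_map.2 ⟨i, by simp; omega, rfl⟩)
  have hut' : ∀ j, j ≤ k i → u i j ∈ t ++ x := by
    intro j hj
    rcases Nat.lt_or_ge j (k i) with h | h
    · exact hut j h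
    · have : j = k i := by omega
      rw [this, huk]
      exact List.mem_append_right _ hβx
  refine ⟨fun j => g (u i j), ?_, ?_, ?_⟩
  · change g (u i 0) = g y
    rw [hu0]
  · change g (u i (k i)) = β i
    rw [huk, hgx _ hβx]
  · intro j hj
    refine ⟨hgF _ (hut j hj) (huA i j hj), ?_⟩
    have h1 := hP.2.1 _ (hg _ (hut j hj)) _ (hg _ (hut' (j + 1) (by omega)))
    change M.1 (g (u i j)) (g (u i (j + 1))) = true
    rw [← huE i j hj]
    exact h1.symm

end Pool.Agent.HB
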